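import Mathlib
import Pool.Agent.H36.BF.All

/-!
Sifting by the primes which do not divide a modulus `Q`.
-/

set_option autoImplicit false

open Finset

namespace Pool.Agent.H36.BE

open Pool.Agent.H36.RW Pool.Agent.H373R2.T7 Pool.Agent.H36.BF

/-- primes `≤ y` not dividing `Q` -/
def p0 (Q y : ℕ) : Finset ℕ := (pz y).filter (fun p => ¬ p ∣ Q)

/-- primes in `(y, z]` not dividing `Q` -/
def pQ (Q y z : ℕ) : Finset ℕ := (Pyz y z).filter (fun p => ¬ p ∣ Q)

/-- the product over the primes `≤ z` not dividing `Q` -/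
noncomputable def VQ (Q z : ℕ) : ℝ := Wp (p0 Q z)

lemma mem_p0 {Q y p : ℕ} : p ∈ p0 Q y ↔ p ≤ y ∧ p.Prime ∧ ¬ p ∣ Q := by
  unfold p0
  rw [mem_filter, mem_pz]
  tauto

lemma mem_pQ {Q y z p : ℕ} : p ∈ pQ Q y z ↔ y < p ∧ p ≤ z ∧ p.Prime ∧ ¬ p ∣ Q := by
  unfold pQ
  rw [mem_filter, mem_Pyz]
  tauto

lemma p0_split (Q y z : ℕ) (h : y ≤ z) : p0 Q z = p0 Q y ∪ pQ Q y z := by
  unfold p0 pQ
  rw [pz_split y z h, filter_union]

lemma p0_disj (Q y z : ℕ) : Disjoint (p0 Q y) (pQ Q y z) :=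
  disjoint_filter_filter (pz_disj y z)

lemma VQ_mul (Q y z : ℕ) (h : y ≤ z) : VQ Q y * Wp (pQ Q y z) = VQ Q z := by
  unfold VQ Wp
  rw [p0_split Q y z h, prod_union (p0_disj Q y z)]

lemma VQ_pos (Q y : ℕ) : 0 < VQ Q y := Wp_pos _ fun _ hp => (mem_p0.1 hp).2.1.two_le

lemma VQ_le_one (Q y : ℕ) : VQ Q y ≤ 1 := Wp_le_one _ fun _ hp => (mem_p0.1 hp).2.1.two_le

lemma WQ_pos (Q y z : ℕ) : 0 < Wp (pQ Q y z) := Wp_pos _ fun _ hp => (mem_pQ.1 hp).2.2.1.two_le

lemma WQ_le_one (Q y z : ℕ) : Wp (pQ Q y z) ≤ 1 := Wp_le_one _ fun _ hp => (mem_pQ.1 hp).2.2.1.two_le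

lemma Wp_mono (P P' : Finset ℕ) (h : P ⊆ P') (hP : ∀ p ∈ P', p.Prime) : Wp P' ≤ Wp P := by
  unfold Wp
  apply prod_le_prod_of_subset_of_le_one h
  · intro p hp
    exact (fac_bounds (hP p hp)).1
  · intro p hp _
    exact (fac_bounds (hP p hp)).2

lemma VQ_ge (Q z : ℕ) : Vz z ≤ VQ Q z := by
  have h1 : Vz z = Wp (pz z) := rfl
  rw [h1]
  exact Wp_mono _ _ (filter_subset _ _) fun p hp => (mem_pz.1 hp).2

lemma WQ_ge (Q y z : ℕ) : Wp (Pyz y z) ≤ Wp (pQ Q y z) :=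
  Wp_mono _ _ (filter_subset _ _) fun _ hp => (mem_Pyz.1 hp).2.2

lemma prod_sub_ge (F : Finset ℕ) (hF : ∀ p ∈ F, p.Prime) : 1 - ∑ p ∈ F, (1 / (p : ℝ)) ≤ Wp F := by
  classical
  induction F using Finset.induction_on with
  | empty => simp [Wp]
  | insert p F hp ih =>
    have h1 := ih fun p' hp' => hF p' (mem_insert_of_mem hp')
    have h2 := fac_bounds (hF p (mem_insert_self _ _))
    have h3 : Wp F ≤ 1 := Wp_le_one F fun p' hp' => (hF p' (mem_insert_of_mem hp')).two_le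
    have h4 : Wp (insert p F) = (1 - 1 / (p : ℝ)) * Wp F := by
      unfold Wp
      rw [prod_insert hp]
    rw [h4, sum_insert hp]
    have h5 : 0 ≤ 1 / (p : ℝ) := by positivity
    nlinarith

/-- few prime factors of `Q` are large -/
lemma half (Q y z : ℕ) (M : ℝ) (hQ : 1 ≤ Q) (hQM : (Q : ℝ) ≤ Real.exp M) (hM : M ≤ y / 2) (hy : 3 ≤ y) :
    Wp (pQ Q y z) ≤ 2 * Wp (Pyz y z) := by
  classical
  set F := (Pyz y z).filter (fun p => p ∣ Q) with hF
  have hFp : ∀ p ∈ F, p.Prime ∧ y < p ∧ p ∣ Q := by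
    intro p hp
    rw [hF, mem_filter, mem_Pyz] at hp
    exact ⟨hp.1.2.2, hp.1.1, hp.2⟩
  have hprod : ∏ p ∈ F, p ∣ Q := by
    apply Finset.prod_primes_dvd
    · intro p hp
      exact (hFp p hp).1.prime
    · intro p hp
      exact (hFp p hp).2.2
  have hle : ∏ p ∈ F, p ≤ Q := Nat.le_of_dvd (by omega) hprod
  have hyF : y ^ F.card ≤ ∏ p ∈ F, p := by
    rw [← prod_const]
    exact prod_le_prod' fun p hp => (hFp p hp).2.1.le
  have hy0 : (0 : ℝ) < y := by exact_mod_cast (by omega : 0 < y)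
  have hlogy : 1 ≤ Real.log y := by
    rw [Real.le_log_iff_exp_le hy0]
    have h1 : (3 : ℝ) ≤ y := by exact_mod_cast hy
    linarith [Real.exp_one_lt_d9]
  have hcard : (F.card : ℝ) ≤ M := by
    have h1 : ((y : ℝ)) ^ F.card ≤ Real.exp M := by
      refine le_trans ?_ hQM
      exact_mod_cast hyF.trans hle
    have h2 := Real.log_le_log (by positivity) h1
    rw [Real.log_pow, Real.log_exp] at h2
    have h3 : (F.card : ℝ) * 1 ≤ F.card * Real.log y := mul_le_mul_of_nonneg_left hlogy (Nat.cast_nonneg _)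
    linarith
  have hsum : ∑ p ∈ F, (1 / (p : ℝ)) ≤ 1 / 2 := by
    calc ∑ p ∈ F, (1 / (p : ℝ)) ≤ ∑ _p ∈ F, (1 / (y : ℝ)) := by
          apply sum_le_sum
          intro p hp
          apply one_div_le_one_div_of_le hy0
          exact_mod_cast (hFp p hp).2.1.le
      _ = F.card / y := by rw [sum_const, nsmul_eq_mul, mul_one_div]
      _ ≤ (y / 2) / y := by
          apply div_le_div_of_nonneg_right _ hy0.le
          linarith
      _ = 1 / 2 := by field_simp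
  have hWF : 1 / 2 ≤ Wp F := by
    have := prod_sub_ge F fun p hp => (hFp p hp).1
    linarith
  have hsplit : Wp (Pyz y z) = Wp F * Wp (pQ Q y z) := by
    unfold Wp pQ
    rw [hF]
    exact (prod_filter_mul_prod_filter_not _ _ _).symm
  rw [hsplit]
  have := WQ_pos Q y z
  nlinarith


end Pool.Agent.H36.BE
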